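import Pool.Agent.J4H85.SY.Fin

set_option autoImplicit false

/-! Complements and the case of all invariant graphs. -/

namespace Pool.Agent.J4H85.SY

open Finset Pool.Agent.H234RC Pool.Agent.TH953.RC

theorem Inv.compl {V : Type} {Γ : Subgroup (Equiv.Perm V)} {G : SimpleGraph V} (h : Inv Γ G) :
    Inv Γ Gᶜ := by
  intro γ hγ x y
  rw [SimpleGraph.compl_adj, SimpleGraph.compl_adj, h γ hγ x y, γ.injective.ne_iff]

theorem OnlySym.compl {V : Type} {Γ : Subgroup (Equiv.Perm V)} {G : SimpleGraph V}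
    (h : OnlySym Γ G) : OnlySym Γ Gᶜ := by
  intro φ hφ
  apply h φ
  intro x y h1 h2 h3 h4
  have h5 := hφ x y h1 h2 h3 h4
  rw [SimpleGraph.compl_adj, SimpleGraph.compl_adj, φ.1.injective.ne_iff] at h5
  by_cases hxy : x = y
  · rw [hxy]; simp
  · tauto

section

variable {V : Type} [Fintype V]

/-- the properties of almost all graphs -/
def Gd (Γ : Subgroup (Equiv.Perm V)) (G : SimpleGraph V) : Prop :=
  OnlySym Γ G ∧ (∀ σ : Equiv.Perm V, (∀ x y, G.Adj (σ x) (σ y) ↔ G.Adj x y) → σ ∈ Γ) ∧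
  Pool.Agent.H234RC.Reconstructible G ∧
  ∀ a b c : V, a ≠ b → a ≠ c → b ≠ c → ¬ ((∃ γ ∈ Γ, γ a = b) ∧ ∃ γ ∈ Γ, γ a = c) → TC G a b c

theorem gd_of (Γ : Subgroup (Equiv.Perm V)) (G : SimpleGraph V) (hI : Inv Γ G)
    (hS : OnlySym Γ G) (hk : Nat.card Γ + 2 < Fintype.card V) : Gd Γ G :=
  ⟨hS, fun σ hσ => aut_mem hS (by omega) σ hσ, recon Γ G hI hS hk,
    fun a b c h1 h2 h3 h4 => crit' G Γ hI hS a b c h1 h2 h3 h4⟩

open Classical in
theorem part_A (Γ : Subgroup (Equiv.Perm V)) (G₀ D : SimpleGraph V) (hD : Inv Γ D)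
    (δ : ℝ) (hδ : 0 < δ) (hδ1 : δ ≤ 1 / 2)
    (hd : ∀ x : V, (1 / 2 + δ) * ((Rg Γ).card : ℝ) ≤
      (((Rg Γ).filter (fun w => D.Adj x w)).card : ℝ))
    (H : 1600 * (Nat.card Γ : ℝ) * Fintype.card V * Real.log (Fintype.card V) ≤
      δ ^ 2 * ((Rg Γ).card : ℝ) ^ 2) :
    (({G | G ∈ Sp Γ G₀ D ∧ ¬ (Gd Γ G ∧ Gd Γ Gᶜ)}.ncard : ℕ) : ℝ) ≤
      Real.exp (-((Rg Γ).card / (216 * Nat.card Γ))) * ((Sp Γ G₀ D).ncard : ℝ) := by
  have : Fintype Γ := Fintype.ofFinite Γ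
  have hk1 : (1 : ℝ) ≤ Nat.card Γ := by
    rw [Nat.card_eq_fintype_card]
    exact_mod_cast Fintype.card_pos
  by_cases hr : (Rg Γ).card = 0
  · rw [hr]
    simp only [Nat.cast_zero, zero_div, neg_zero, Real.exp_zero, one_mul]
    have : {G | G ∈ Sp Γ G₀ D ∧ ¬ (Gd Γ G ∧ Gd Γ Gᶜ)}.ncard ≤ (Sp Γ G₀ D).ncard :=
      Set.ncard_le_ncard (fun G hG => hG.1) (Set.toFinite _)
    exact_mod_cast this
  · have hr0 : 0 < (Rg Γ).card := Nat.pos_of_ne_zero hr
    have hrn := card_Rg_le Γ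
    have hn : 2 ≤ Fintype.card V := by
      obtain ⟨x, hx⟩ := card_pos.1 hr0
      have h1 := hd x
      have h2 : 0 < ((Rg Γ).filter (fun w => D.Adj x w)).card := by
        have h3 : (0 : ℝ) < (1 / 2 + δ) * ((Rg Γ).card : ℝ) := by
          have : (0 : ℝ) < (Rg Γ).card := by exact_mod_cast hr0
          positivity
        have h4 := h3.trans_le h1
        exact_mod_cast h4
      obtain ⟨w, hw⟩ := card_pos.1 h2
      have h3 : x ≠ w := ((mem_filter.1 hw).2).ne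
      have h4 : ({x, w} : Finset V).card ≤ Fintype.card V := by
        rw [← card_univ]
        exact card_le_card (subset_univ _)
      rwa [card_pair h3] at h4
    obtain ⟨h1, -⟩ := final_bound (Fintype.card V) hn (Nat.card Γ) ((Rg Γ).card) δ hk1
      (Nat.cast_nonneg _) (by exact_mod_cast hrn) hδ hδ1 H
    have hk : Nat.card Γ + 2 < Fintype.card V := by
      have h2 : δ / 4 * ((Rg Γ).card : ℝ) < (Rg Γ).card := by
        have : (0 : ℝ) < (Rg Γ).card := by exact_mod_cast hr0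
        nlinarith
      have h3 : (Nat.card Γ : ℝ) + 2 < (Rg Γ).card := h1.trans_lt h2
      have h4 : Nat.card Γ + 2 < (Rg Γ).card := by exact_mod_cast h3
      omega
    refine le_trans ?_ (almost_all Γ G₀ D hD δ hδ hδ1 hd H)
    have hsub : {G | G ∈ Sp Γ G₀ D ∧ ¬ (Gd Γ G ∧ Gd Γ Gᶜ)} ⊆
        {G | G ∈ Sp Γ G₀ D ∧ ¬ OnlySym Γ G} := by
      rintro G ⟨hG1, hG2⟩
      refine ⟨hG1, fun hS => hG2 ⟨gd_of Γ G hG1.1 hS hk, gd_of Γ Gᶜ hG1.1.compl hS.compl hk⟩⟩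
    exact_mod_cast Set.ncard_le_ncard hsub (Set.toFinite _)

open Classical in
theorem part_B (Γ : Subgroup (Equiv.Perm V)) (hn : 2 ≤ Fintype.card V)
    (H : 25600 * (Nat.card Γ : ℝ) * Fintype.card V * Real.log (Fintype.card V) ≤
      ((Rg Γ).card : ℝ) ^ 2) :
    (({G | Inv Γ G ∧ ¬ (Gd Γ G ∧ Gd Γ Gᶜ)}.ncard : ℕ) : ℝ) ≤
      Real.exp (-((Rg Γ).card / (216 * Nat.card Γ))) * (({G | Inv Γ G}.ncard : ℕ) : ℝ) := by
  have : Fintype Γ := Fintype.ofFinite Γ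
  have hk1 : (1 : ℝ) ≤ Nat.card Γ := by
    rw [Nat.card_eq_fintype_card]
    exact_mod_cast Fintype.card_pos
  have hN2 : (2 : ℝ) ≤ Fintype.card V := by exact_mod_cast hn
  have hl0 : 2 / 3 ≤ Real.log (Fintype.card V) := by
    have := Real.log_le_log (by norm_num) hN2
    linarith [Real.log_two_gt_d9]
  have hr4 : (4 : ℝ) ≤ (Rg Γ).card := by
    by_contra h
    push Not at h
    have h1 : ((Rg Γ).card : ℝ) ^ 2 < 16 := by
      have : (0 : ℝ) ≤ (Rg Γ).card := Nat.cast_nonneg _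
      nlinarith
    have h2 : (1 : ℝ) ≤ (Nat.card Γ : ℝ) * Fintype.card V := by nlinarith
    nlinarith [mul_le_mul h2 hl0 (by norm_num) (by positivity)]
  have hSp : Sp Γ (⊥ : SimpleGraph V) ⊤ = {G | Inv Γ G} := by
    ext G
    refine ⟨fun h => h.1, fun h => ⟨h, fun x y hxy => ?_⟩⟩
    have : x = y := by
      by_contra hne
      exact hxy hne
    rw [this]
    simp
  have hset : {G | Inv Γ G ∧ ¬ (Gd Γ G ∧ Gd Γ Gᶜ)} =
      {G | G ∈ Sp Γ (⊥ : SimpleGraph V) ⊤ ∧ ¬ (Gd Γ G ∧ Gd Γ Gᶜ)} := by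
    rw [hSp]
    rfl
  rw [hset, ← hSp]
  apply part_A Γ ⊥ ⊤ ?_ (1 / 4) (by norm_num) (by norm_num) ?_ (by linarith)
  · intro γ _ x y
    rw [SimpleGraph.top_adj, SimpleGraph.top_adj, γ.injective.ne_iff]
  · intro x
    let F : Finset V := @Finset.filter V (fun w => (⊤ : SimpleGraph V).Adj x w)
      (fun a => Classical.propDecidable _) (Rg Γ)
    have h1 : (Rg Γ).card ≤ F.card + 1 := by
      have hs : Rg Γ ⊆ insert x F := by
        intro w hw
        by_cases hxw : w = x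
        · rw [hxw]; exact mem_insert_self _ _
        · refine mem_insert_of_mem ?_
          have hF : ∀ w, w ∈ F ↔ w ∈ Rg Γ ∧ (⊤ : SimpleGraph V).Adj x w := fun w => by
            simp only [F]
            exact @mem_filter _ _ (fun a => Classical.propDecidable _) _ _
          exact (hF w).2 ⟨hw, fun e => hxw e.symm⟩
      exact (card_le_card hs).trans (card_insert_le _ _)
    have h2 : ((Rg Γ).card : ℝ) ≤ (F.card : ℝ) + 1 := by
      exact_mod_cast h1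
    show (1 / 2 + 1 / 4) * ((Rg Γ).card : ℝ) ≤ (F.card : ℝ)
    linarith

end

end Pool.Agent.J4H85.SY
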