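import Pool.Agent.J4H85.SY.Flip

set_option autoImplicit false

/-! The number of bad pairs of a near-automorphism which is not the restriction of a symmetry. -/

namespace Pool.Agent.J4H85.SY

open Finset Pool.Agent.H234RC

section

variable {V : Type} [Fintype V] (Γ : Subgroup (Equiv.Perm V))

open Classical in
/-- the vertices which are fixed only by the identity -/
noncomputable def Rg : Finset V := univ.filter (fun x => ∀ γ ∈ Γ, γ x = x → γ = 1)

theorem mem_Rg (x : V) : x ∈ Rg Γ ↔ ∀ γ ∈ Γ, γ x = x → γ = 1 := by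
  classical
  unfold Rg
  rw [mem_filter]
  exact ⟨fun h => h.2, fun h => ⟨mem_univ _, h⟩⟩

theorem Rg_uniq {x : V} (hx : x ∈ Rg Γ) {γ γ' : Equiv.Perm V} (h : γ ∈ Γ) (h' : γ' ∈ Γ)
    (e : γ x = γ' x) : γ = γ' := by
  have h1 := (mem_Rg Γ x).1 hx (γ'⁻¹ * γ) (mul_mem (inv_mem h') h) (by
    rw [Equiv.Perm.mul_apply, e]
    simp)
  have h2 : γ' * (γ'⁻¹ * γ) = γ' * 1 := by rw [h1]
  simpa using h2

open Classical in
/-- the regular vertices where `σ` agrees with `γ` -/
noncomputable def Ag (σ γ : Equiv.Perm V) : Finset V := (Rg Γ).filter (fun x => σ x = γ x)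

theorem mem_Ag (σ γ : Equiv.Perm V) (x : V) : x ∈ Ag Γ σ γ ↔ x ∈ Rg Γ ∧ σ x = γ x := by
  classical
  unfold Ag
  rw [mem_filter]

open Classical in
/-- the bad partners of `u` -/
theorem bad_at (D : SimpleGraph V) (φ : NAut V) (u : V) (h1 : u ≠ φ.2.1) (h2 : u ≠ φ.2.2)
    (W : Finset V) (hW : ∀ w ∈ W, D.Adj u w)
    (hW' : ∀ w ∈ W, ∀ γ ∈ Γ, ¬ (φ.1 u = γ u ∧ φ.1 w = γ w)) :
    W.card ≤ ((bp Γ D φ).filter (fun q => q.1 = u)).card + (Nat.card Γ + 2) := by
  have : Fintype Γ := Fintype.ofFinite Γ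
  have hsub : W ⊆ ((bp Γ D φ).filter (fun q => q.1 = u)).image (fun q => q.2) ∪
      ((univ : Finset Γ).image (fun γ : Γ => (γ : Equiv.Perm V).symm (φ.1 u)) ∪ {φ.2.1, φ.2.2}) := by
    intro w hw
    by_cases w1 : w = φ.2.1
    · exact mem_union_right _ (mem_union_right _ (by simp [w1]))
    by_cases w2 : w = φ.2.2
    · exact mem_union_right _ (mem_union_right _ (by simp [w2]))
    by_cases hc : cl Γ s(φ.1 u, φ.1 w) = cl Γ s(u, w)
    · obtain ⟨γ, hγ, h3⟩ := (cl_eq Γ).1 hc.symm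
      rw [Sym2.map_mk] at h3
      have h4 : s(γ u, γ w) = s(φ.1 u, φ.1 w) := h3
      rcases Sym2.eq_iff.1 h4 with ⟨h5, h6⟩ | ⟨h5, h6⟩
      · exact absurd ⟨h5.symm, h6.symm⟩ (hW' w hw γ hγ)
      · apply mem_union_right
        apply mem_union_left
        rw [mem_image]
        exact ⟨⟨γ, hγ⟩, mem_univ _, (Equiv.symm_apply_eq _).2 h6.symm⟩
    · apply mem_union_left
      rw [mem_image]
      refine ⟨(u, w), mem_filter.2 ⟨(mem_bp Γ D φ _).2 ⟨hW w hw, h1, h2, w1, w2, hc⟩, rfl⟩, rfl⟩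
  calc W.card ≤ _ := card_le_card hsub
    _ ≤ _ + _ := card_union_le _ _
    _ ≤ ((bp Γ D φ).filter (fun q => q.1 = u)).card + (Nat.card Γ + 2) := by
      apply Nat.add_le_add card_image_le
      refine (card_union_le _ _).trans (Nat.add_le_add ?_ (card_le_two))
      refine card_image_le.trans ?_
      rw [card_univ, Nat.card_eq_fintype_card]

open Classical in
/-- adding up -/
theorem bad_sum (D : SimpleGraph V) (φ : NAut V) (U : Finset V) (c : ℝ)
    (h : ∀ u ∈ U, c ≤ (((bp Γ D φ).filter (fun q => q.1 = u)).card : ℝ)) :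
    (U.card : ℝ) * c ≤ ((bp Γ D φ).card : ℝ) := by
  have h1 : ∑ u ∈ U, ((bp Γ D φ).filter (fun q => q.1 = u)).card ≤ (bp Γ D φ).card := by
    rw [← card_biUnion]
    · apply card_le_card
      intro q hq
      rw [mem_biUnion] at hq
      obtain ⟨a, _, ha⟩ := hq
      exact (mem_filter.1 ha).1
    · intro a _ b _ hab
      rw [Function.onFun, Finset.disjoint_left]
      intro q h1 h2
      exact hab ((mem_filter.1 h1).2.symm.trans (mem_filter.1 h2).2)
  calc (U.card : ℝ) * c = ∑ u ∈ U, c := by rw [sum_const, nsmul_eq_mul]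
    _ ≤ ∑ u ∈ U, (((bp Γ D φ).filter (fun q => q.1 = u)).card : ℝ) := sum_le_sum h
    _ = ((∑ u ∈ U, ((bp Γ D φ).filter (fun q => q.1 = u)).card : ℕ) : ℝ) := by push_cast; rfl
    _ ≤ _ := by exact_mod_cast h1

open Classical in
/-- the vertices where `σ` and `γ` differ -/
noncomputable def df (σ γ : Equiv.Perm V) : Finset V := univ.filter (fun x => σ x ≠ γ x)

theorem mem_df (σ γ : Equiv.Perm V) (x : V) : x ∈ df σ γ ↔ σ x ≠ γ x := by
  classical
  unfold df
  rw [mem_filter]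
  exact ⟨fun h => h.2, fun h => ⟨mem_univ _, h⟩⟩

open Classical in
/-- the dichotomy -/
theorem dich (D : SimpleGraph V) (φ : NAut V) (δ : ℝ) (hδ : 0 < δ) (hδ1 : δ ≤ 1 / 2)
    (hk : (Nat.card Γ : ℝ) + 2 ≤ δ / 4 * (Rg Γ).card)
    (hD : ∀ x : V, (1 / 2 + δ) * ((Rg Γ).card : ℝ) ≤
      (((Rg Γ).filter (fun w => D.Adj x w)).card : ℝ))
    (hφ : ∀ γ ∈ Γ, ∃ x, x ≠ φ.2.1 ∧ x ≠ φ.2.2 ∧ φ.1 x ≠ γ x) :
    (∃ γ ∈ Γ, (df φ.1 γ).Nonempty ∧
      ((df φ.1 γ).card : ℝ) * (Rg Γ).card ≤ 12 * ((bp Γ D φ).card : ℝ)) ∨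
    δ ^ 2 * ((Rg Γ).card : ℝ) ^ 2 ≤ 8 * ((bp Γ D φ).card : ℝ) := by
  set R := Rg Γ with hR
  set r : ℝ := (R.card : ℝ) with hr
  have hk0 : (0 : ℝ) ≤ Nat.card Γ := Nat.cast_nonneg _
  have hr0 : 0 < r := by
    by_contra h
    push Not at h
    have : δ / 4 * r ≤ 0 := mul_nonpos_of_nonneg_of_nonpos (by positivity) h
    linarith
  have : Fintype Γ := Fintype.ofFinite Γ
  obtain ⟨γ1, -, hmax⟩ := exists_max_image (univ : Finset Γ)
    (fun γ => (Ag Γ φ.1 (γ : Equiv.Perm V)).card) ⟨1, mem_univ _⟩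
  set α : ℝ := ((Ag Γ φ.1 (γ1 : Equiv.Perm V)).card : ℝ) with hα
  have hmax' : ∀ γ ∈ Γ, ((Ag Γ φ.1 γ).card : ℝ) ≤ α := by
    intro γ hγ
    have := hmax ⟨γ, hγ⟩ (mem_univ _)
    rw [hα]
    exact_mod_cast this
  by_cases hA : (1 - δ / 2) * r ≤ α
  · left
    refine ⟨γ1, γ1.2, ?_, ?_⟩
    · obtain ⟨x, -, -, hx⟩ := hφ γ1 γ1.2
      exact ⟨x, (mem_df _ _ _).2 hx⟩
    · set U : Finset V := (df φ.1 (γ1 : Equiv.Perm V)).filter
        (fun x => x ≠ φ.2.1 ∧ x ≠ φ.2.2) with hU
      have hU1 : 1 ≤ U.card := by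
        obtain ⟨x, h1, h2, hx⟩ := hφ γ1 γ1.2
        exact card_pos.2 ⟨x, mem_filter.2 ⟨(mem_df _ _ _).2 hx, h1, h2⟩⟩
      have hU2 : (df φ.1 (γ1 : Equiv.Perm V)).card ≤ U.card + 2 := by
        have hs : df φ.1 (γ1 : Equiv.Perm V) ⊆ U ∪ {φ.2.1, φ.2.2} := by
          intro x hx
          by_cases h1 : x = φ.2.1
          · exact mem_union_right _ (by simp [h1])
          by_cases h2 : x = φ.2.2
          · exact mem_union_right _ (by simp [h2])
          exact mem_union_left _ (mem_filter.2 ⟨hx, h1, h2⟩)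
        exact (card_le_card hs).trans ((card_union_le _ _).trans
          (Nat.add_le_add le_rfl card_le_two))
      have hU3 : ((df φ.1 (γ1 : Equiv.Perm V)).card : ℝ) ≤ 3 * U.card := by
        have : (df φ.1 (γ1 : Equiv.Perm V)).card ≤ 3 * U.card := by omega
        exact_mod_cast this
      have hb : ∀ u ∈ U, r / 4 ≤ (((bp Γ D φ).filter (fun q => q.1 = u)).card : ℝ) := by
        intro u hu
        obtain ⟨hu1, hu2, hu3⟩ := mem_filter.1 hu
        have hu4 := (mem_df _ _ _).1 hu1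
        have hW := bad_at Γ D φ u hu2 hu3
          ((R.filter (fun w => D.Adj u w)) ∩ (Ag Γ φ.1 (γ1 : Equiv.Perm V)))
          (fun w hw => (mem_filter.1 (mem_inter.1 hw).1).2)
          (by
            intro w hw γ hγ h
            obtain ⟨hw1, hw2⟩ := (mem_Ag Γ _ _ _).1 (mem_inter.1 hw).2
            have : γ = γ1 := Rg_uniq Γ hw1 hγ γ1.2 (by rw [← h.2, hw2])
            rw [this] at h
            exact hu4 h.1)
        have hW1 : (((bp Γ D φ).filter (fun q => q.1 = u)).card : ℝ) + (Nat.card Γ + 2) ≥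
            (((R.filter (fun w => D.Adj u w)) ∩ (Ag Γ φ.1 (γ1 : Equiv.Perm V))).card : ℝ) := by
          exact_mod_cast hW
        have hW2 : ((R.filter (fun w => D.Adj u w)).card : ℝ) + α ≤
            (((R.filter (fun w => D.Adj u w)) ∩ (Ag Γ φ.1 (γ1 : Equiv.Perm V))).card : ℝ) + r := by
          have h1 := card_union_add_card_inter (R.filter (fun w => D.Adj u w))
            (Ag Γ φ.1 (γ1 : Equiv.Perm V))
          have h2 : ((R.filter (fun w => D.Adj u w)) ∪ (Ag Γ φ.1 (γ1 : Equiv.Perm V))).card ≤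
              R.card := card_le_card (union_subset (filter_subset _ _)
                (fun w hw => ((mem_Ag Γ _ _ _).1 hw).1))
          have h3 : (R.filter (fun w => D.Adj u w)).card + (Ag Γ φ.1 (γ1 : Equiv.Perm V)).card ≤
              ((R.filter (fun w => D.Adj u w)) ∩ (Ag Γ φ.1 (γ1 : Equiv.Perm V))).card + R.card := by
            omega
          rw [hα, hr]
          exact_mod_cast h3
        have hD1 := hD u
        nlinarith
      have := bad_sum Γ D φ U (r / 4) hb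
      nlinarith
  · right
    push Not at hA
    set U : Finset V := (R \ (Ag Γ φ.1 (γ1 : Equiv.Perm V))).filter
        (fun x => x ≠ φ.2.1 ∧ x ≠ φ.2.2) with hU
    have hAsub : Ag Γ φ.1 (γ1 : Equiv.Perm V) ⊆ R := fun w hw => ((mem_Ag Γ _ _ _).1 hw).1
    have hU2 : r - α ≤ U.card + 2 := by
      have hs : R ⊆ (U ∪ {φ.2.1, φ.2.2}) ∪ Ag Γ φ.1 (γ1 : Equiv.Perm V) := by
        intro x hx
        by_cases h0 : x ∈ Ag Γ φ.1 (γ1 : Equiv.Perm V)
        · exact mem_union_right _ h0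
        apply mem_union_left
        by_cases h1 : x = φ.2.1
        · exact mem_union_right _ (by simp [h1])
        by_cases h2 : x = φ.2.2
        · exact mem_union_right _ (by simp [h2])
        exact mem_union_left _ (mem_filter.2 ⟨mem_sdiff.2 ⟨hx, h0⟩, h1, h2⟩)
      have h1 : R.card ≤ (U.card + 2) + (Ag Γ φ.1 (γ1 : Equiv.Perm V)).card :=
        (card_le_card hs).trans ((card_union_le _ _).trans (Nat.add_le_add
          ((card_union_le _ _).trans (Nat.add_le_add le_rfl card_le_two)) le_rfl))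
      have h2 : r ≤ ((U.card : ℝ) + 2) + α := by
        rw [hα, hr]
        exact_mod_cast h1
      linarith
    have hb : ∀ u ∈ U, δ / 2 * r ≤ (((bp Γ D φ).filter (fun q => q.1 = u)).card : ℝ) := by
      intro u hu
      obtain ⟨hu1, hu2, hu3⟩ := mem_filter.1 hu
      obtain ⟨huR, hu4⟩ := mem_sdiff.1 hu1
      -- the class of u
      obtain ⟨C, hC1, hC2, hC3⟩ : ∃ C : Finset V, (C.card : ℝ) ≤ r / 2 ∧ C ⊆ R ∧
          ∀ w ∈ R, w ∉ C → ∀ γ ∈ Γ, ¬ (φ.1 u = γ u ∧ φ.1 w = γ w) := by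
        by_cases hex : ∃ γ ∈ Γ, φ.1 u = γ u
        · obtain ⟨γu, hγu, hu5⟩ := hex
          refine ⟨Ag Γ φ.1 γu, ?_, fun w hw => ((mem_Ag Γ _ _ _).1 hw).1, ?_⟩
          · have hdisj : Disjoint (Ag Γ φ.1 γu) (Ag Γ φ.1 (γ1 : Equiv.Perm V)) := by
              rw [Finset.disjoint_left]
              intro w hw1 hw2
              obtain ⟨a1, a2⟩ := (mem_Ag Γ _ _ _).1 hw1
              obtain ⟨b1, b2⟩ := (mem_Ag Γ _ _ _).1 hw2
              have : γu = γ1 := Rg_uniq Γ a1 hγu γ1.2 (by rw [← a2, b2])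
              rw [this] at hu5
              exact hu4 ((mem_Ag Γ _ _ _).2 ⟨huR, hu5⟩)
            have h1 : (Ag Γ φ.1 γu).card + (Ag Γ φ.1 (γ1 : Equiv.Perm V)).card ≤ R.card := by
              rw [← card_union_of_disjoint hdisj]
              exact card_le_card (union_subset (fun w hw => ((mem_Ag Γ _ _ _).1 hw).1) hAsub)
            have h2 : ((Ag Γ φ.1 γu).card : ℝ) + α ≤ r := by
              rw [hα, hr]
              exact_mod_cast h1
            have h3 := hmax' γu hγu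
            linarith
          · intro w hwR hwC γ hγ h
            have : γ = γu := Rg_uniq Γ huR hγ hγu (by rw [← h.1, hu5])
            rw [this] at h
            exact hwC ((mem_Ag Γ _ _ _).2 ⟨hwR, h.2⟩)
        · refine ⟨∅, by simp; positivity, empty_subset _, ?_⟩
          intro w _ _ γ hγ h
          exact hex ⟨γ, hγ, h.1⟩
      have hW := bad_at Γ D φ u hu2 hu3 ((R.filter (fun w => D.Adj u w)) \ C)
          (fun w hw => (mem_filter.1 (mem_sdiff.1 hw).1).2)
          (fun w hw => hC3 w (mem_filter.1 (mem_sdiff.1 hw).1).1 (mem_sdiff.1 hw).2)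
      have hW1 : (((bp Γ D φ).filter (fun q => q.1 = u)).card : ℝ) + (Nat.card Γ + 2) ≥
            (((R.filter (fun w => D.Adj u w)) \ C).card : ℝ) := by
          exact_mod_cast hW
      have hW2 : ((R.filter (fun w => D.Adj u w)).card : ℝ) ≤
          (((R.filter (fun w => D.Adj u w)) \ C).card : ℝ) + C.card := by
        have h1 : (R.filter (fun w => D.Adj u w)).card ≤
            ((R.filter (fun w => D.Adj u w)) \ C).card + C.card := by
          have := le_card_sdiff C (R.filter (fun w => D.Adj u w))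
          omega
        exact_mod_cast h1
      have hD1 := hD u
      nlinarith
    have := bad_sum Γ D φ U (δ / 2 * r) hb
    have hU3 : δ / 4 * r ≤ U.card := by nlinarith
    nlinarith [mul_le_mul_of_nonneg_right hU3 (show 0 ≤ δ / 2 * r by positivity)]

end

end Pool.Agent.J4H85.SY
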