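import Pool.Agent.TH953.RC.Det

set_option autoImplicit false

/-! If every near-automorphism is the restriction of an automorphism, then three cards at vertices
which are not all in the same orbit determine the graph. -/

namespace Pool.Agent.J4H85.SY

open Finset Pool.Agent.H234RC Pool.Agent.TH953.RC

/-- `G` is invariant under the group `Γ` of permutations. -/
def Inv {V : Type} (Γ : Subgroup (Equiv.Perm V)) (G : SimpleGraph V) : Prop :=
  ∀ γ ∈ Γ, ∀ x y : V, G.Adj (γ x) (γ y) ↔ G.Adj x y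

/-- Every isomorphism between two induced subgraphs of `G` on all but two of the vertices is the
restriction of a member of `Γ`. -/
def OnlySym {V : Type} (Γ : Subgroup (Equiv.Perm V)) (G : SimpleGraph V) : Prop :=
  ∀ φ : NAut V, IsNA G φ → ∃ γ ∈ Γ, ∀ x, x ≠ φ.2.1 → x ≠ φ.2.2 → φ.1 x = γ x

theorem key_pair {V W : Type} {G : SimpleGraph V} {H : SimpleGraph W}
    (Γ : Subgroup (Equiv.Perm V)) (hS : OnlySym Γ G) {v1 v2 : V} {w1 w2 : W}
    {π1 π2 : V ≃ W} (e1 : π1 v1 = w1) (e2 : π2 v2 = w2) (g12 : w1 ≠ w2)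
    (h1 : ∀ x y, x ≠ v1 → y ≠ v1 → (H.Adj (π1 x) (π1 y) ↔ G.Adj x y))
    (h2 : ∀ x y, x ≠ v2 → y ≠ v2 → (H.Adj (π2 x) (π2 y) ↔ G.Adj x y))
    (ho : ∀ γ ∈ Γ, γ v1 ≠ v2) (hI : Inv Γ G) :
    ∀ x, x ≠ π1.symm w2 → (H.Adj (π1 v1) (π1 x) ↔ G.Adj v1 x) := by
  obtain ⟨γ, hγ, h⟩ := hS _ (trans_na e1 e2 h1 h2)
  simp only [Equiv.trans_apply] at h
  set p := π1.symm w2 with hp
  have hpw : π1 p = w2 := by rw [hp, Equiv.apply_symm_apply]
  have hpv : p ≠ v1 := by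
    intro e
    rw [e, e1] at hpw
    exact g12 hpw
  have hfp : π2.symm (π1 p) = v2 := by
    rw [hpw, ← e2, Equiv.symm_apply_apply]
  -- γ p = v2
  have hγp : γ p = v2 := by
    by_contra hne
    -- the preimage of v2 under γ is v1
    have hx : γ.symm v2 = v1 := by
      by_contra hx1
      have hx2 : γ.symm v2 ≠ p := by
        intro e
        apply hne
        rw [← e, Equiv.apply_symm_apply]
      have h3 := h _ hx1 hx2
      rw [Equiv.apply_symm_apply] at h3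
      exact hx2 (π1.injective (π2.symm.injective (h3.trans hfp.symm)))
    exact ho γ hγ (by rw [← hx, Equiv.apply_symm_apply])
  have hγ1 : π2.symm (π1 v1) = γ v1 := by
    by_contra hne
    obtain ⟨x, hx⟩ := γ.surjective (π2.symm (π1 v1))
    have hx1 : x ≠ v1 := by
      intro e
      rw [e] at hx
      exact hne hx.symm
    have hx2 : x ≠ p := by
      intro e
      rw [e, hγp, ← hfp] at hx
      exact hpv (π1.injective (π2.symm.injective hx))
    have h3 := h _ hx1 hx2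
    rw [hx] at h3
    exact hx1 (π1.injective (π2.symm.injective h3))
  intro x hx
  by_cases hx1 : x = v1
  · rw [hx1]
    simp
  · have hxx : π1 x = π2 (γ x) := (Equiv.symm_apply_eq _).1 (h x hx1 hx)
    have h11 : π1 v1 = π2 (γ v1) := (Equiv.symm_apply_eq _).1 hγ1
    rw [hxx, h11]
    rw [h2 _ _ (ho γ hγ) (fun e => hx (γ.injective (e.trans hγp.symm)))]
    exact hI γ hγ _ _

/-- the criterion -/
theorem crit {V : Type} [Fintype V] (G : SimpleGraph V) (Γ : Subgroup (Equiv.Perm V))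
    (hI : Inv Γ G) (hS : OnlySym Γ G) (v1 v2 v3 : V) (h12 : ∀ γ ∈ Γ, γ v1 ≠ v2)
    (h13 : ∀ γ ∈ Γ, γ v1 ≠ v3) (h23 : v2 ≠ v3) : TC G v1 v2 v3 := by
  refine ⟨h12 1 (one_mem _), h13 1 (one_mem _), h23, ?_⟩
  intro W _ H w1 w2 w3 g12 g13 g23 c1 c2 c3
  obtain ⟨π1, e1, a1⟩ := card_ext G H v1 w1 c1
  obtain ⟨π2, e2, a2⟩ := card_ext G H v2 w2 c2
  obtain ⟨π3, e3, a3⟩ := card_ext G H v3 w3 c3
  have k2 := key_pair Γ hS e1 e2 g12 a1 a2 h12 hI
  have k3 := key_pair Γ hS e1 e3 g13 a1 a3 h13 hI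
  have key : ∀ x, (H.Adj (π1 v1) (π1 x) ↔ G.Adj v1 x) := by
    intro x
    by_cases hx : x = π1.symm w2
    · apply k3
      intro e
      rw [hx] at e
      exact g23 (π1.symm.injective e)
    · exact k2 x hx
  apply whole_iso G H π1
  intro x y
  by_cases hx : x = v1
  · rw [hx]; exact key y
  · by_cases hy : y = v1
    · rw [hy, H.adj_comm, G.adj_comm]; exact key x
    · exact a1 x y hx hy

theorem TC.rot {V : Type} {G : SimpleGraph V} {a b c : V} (h : TC G a b c) : TC G b c a := by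
  obtain ⟨h1, h2, h3, h4⟩ := h
  refine ⟨h3, h1.symm, h2.symm, ?_⟩
  intro W _ H b' c' a' g1 g2 g3 k1 k2 k3
  exact h4 W H a' b' c' g2.symm g3.symm g1 k3 k1 k2

/-- three different vertices which are not in the same orbit -/
theorem crit' {V : Type} [Fintype V] (G : SimpleGraph V) (Γ : Subgroup (Equiv.Perm V))
    (hI : Inv Γ G) (hS : OnlySym Γ G) (a b c : V) (h12 : a ≠ b) (h13 : a ≠ c) (h23 : b ≠ c)
    (ho : ¬ ((∃ γ ∈ Γ, γ a = b) ∧ ∃ γ ∈ Γ, γ a = c)) : TC G a b c := by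
  have symm' : ∀ x y : V, (∃ γ ∈ Γ, γ x = y) → ∃ γ ∈ Γ, γ y = x := by
    rintro x y ⟨γ, hγ, rfl⟩
    exact ⟨γ⁻¹, inv_mem hγ, by simp⟩
  have trans' : ∀ x y z : V, (∃ γ ∈ Γ, γ x = y) → (∃ γ ∈ Γ, γ y = z) → ∃ γ ∈ Γ, γ x = z := by
    rintro x y z ⟨γ, hγ, rfl⟩ ⟨γ', hγ', rfl⟩
    exact ⟨γ' * γ, mul_mem hγ' hγ, by simp⟩
  have push : ∀ x y : V, ¬ (∃ γ ∈ Γ, γ x = y) → ∀ γ ∈ Γ, γ x ≠ y := by
    intro x y h γ hγ e
    exact h ⟨γ, hγ, e⟩
  by_cases hab : ∃ γ ∈ Γ, γ a = b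
  · have hac : ¬ ∃ γ ∈ Γ, γ a = c := fun h => ho ⟨hab, h⟩
    -- c is different from both
    have h1 : ∀ γ ∈ Γ, γ c ≠ a := push _ _ (fun h => hac (symm' _ _ h))
    have h2 : ∀ γ ∈ Γ, γ c ≠ b := push _ _ (fun h => hac (trans' _ _ _ hab (symm' _ _ h)))
    exact TC.rot (crit G Γ hI hS c a b h1 h2 h12)
  · by_cases hac : ∃ γ ∈ Γ, γ a = c
    · have h1 : ∀ γ ∈ Γ, γ b ≠ c := push _ _ (fun h => hab (trans' _ _ _ hac (symm' _ _ h)))
      have h2 : ∀ γ ∈ Γ, γ b ≠ a := push _ _ (fun h => hab (symm' _ _ h))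
      exact TC.rot (TC.rot (crit G Γ hI hS b c a h1 h2 h13.symm))
    · exact crit G Γ hI hS a b c (push _ _ hab) (push _ _ hac) h23

end Pool.Agent.J4H85.SY
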