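import Pool.Agent.J4H85.SY.Sum

set_option autoImplicit false

/-! The estimates and the final form. -/

namespace Pool.Agent.J4H85.SY

open Finset Pool.Agent.H234RC Pool.Agent.TH953.RC

theorem final_bound (n : ℕ) (hn : 2 ≤ n) (k r δ : ℝ) (hk : 1 ≤ k) (hr : 0 ≤ r) (hrn : r ≤ n)
    (hδ : 0 < δ) (hδ1 : δ ≤ 1 / 2) (H : 1600 * k * n * Real.log n ≤ δ ^ 2 * r ^ 2) :
    k + 2 ≤ δ / 4 * r ∧
    (n : ℝ) ^ 2 * (k * ((1 + n * Real.exp (-(r / (108 * k)))) ^ n - 1) +
      (n : ℝ) ^ n * Real.exp (-(δ ^ 2 * r ^ 2 / (72 * k)))) ≤ Real.exp (-(r / (216 * k))) := by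
  have hN2 : (2 : ℝ) ≤ n := by exact_mod_cast hn
  set N : ℝ := (n : ℝ) with hN
  set l : ℝ := Real.log N with hl
  have hl0 : 2 / 3 ≤ l := by
    have := Real.log_le_log (by norm_num) hN2
    linarith [Real.log_two_gt_d9]
  have hexp : Real.exp l = N := Real.exp_log (by linarith)
  have hkl : 0 < k * l := by positivity
  have h1 : 1600 * (k * l) ≤ δ ^ 2 * r := by
    have h2 : (1600 * (k * l)) * N ≤ (δ ^ 2 * r) * N := by
      calc (1600 * (k * l)) * N = 1600 * k * N * l := by ring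
        _ ≤ δ ^ 2 * r ^ 2 := H
        _ = (δ ^ 2 * r) * r := by ring
        _ ≤ (δ ^ 2 * r) * N := mul_le_mul_of_nonneg_left hrn (by positivity)
    exact le_of_mul_le_mul_right h2 (by linarith)
  have h2 : 3200 * (k * l) ≤ δ * r := by
    have : δ ^ 2 * r ≤ 1 / 2 * (δ * r) := by
      have : δ * (δ * r) ≤ 1 / 2 * (δ * r) := mul_le_mul_of_nonneg_right hδ1 (by positivity)
      nlinarith
    linarith
  have h3 : 6400 * (k * l) ≤ r := by
    have : δ * r ≤ 1 / 2 * r := mul_le_mul_of_nonneg_right hδ1 hr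
    linarith
  have h4 : 2 / 3 * k ≤ k * l := by nlinarith
  refine ⟨by nlinarith, ?_⟩
  have hkN : k ≤ N := by nlinarith
  set t : ℝ := r / (216 * k) with ht
  have hkpos : 0 < k := by linarith
  have ht1 : 7 * l ≤ t := by
    rw [ht, le_div_iff₀ (by positivity)]
    nlinarith
  have ht2 : t ≤ N * l := by
    rw [ht, div_le_iff₀ (by positivity)]
    nlinarith [mul_le_mul_of_nonneg_left hl0 (show 0 ≤ N by linarith)]
  set E : ℝ := Real.exp (-t) with hE
  have hE0 : 0 < E := Real.exp_pos _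
  have hx : Real.exp (-(r / (108 * k))) = E ^ 2 := by
    rw [hE, ← Real.exp_nat_mul]
    congr 1
    rw [ht]
    push_cast
    ring
  have hN7 : N ^ 7 * E ≤ 1 := by
    rw [← hexp, ← Real.exp_nat_mul, hE, ← Real.exp_add]
    apply Real.exp_le_one_iff.2
    push_cast
    linarith
  have hN5 : 4 * N ^ 5 * E ≤ 1 := by
    have h5 : 4 * N ^ 5 ≤ N ^ 7 := by
      have : N ^ 7 = N ^ 2 * N ^ 5 := by ring
      rw [this]
      exact mul_le_mul_of_nonneg_right (by nlinarith) (by positivity)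
    exact (mul_le_mul_of_nonneg_right h5 hE0.le).trans hN7
  have hNE : N * E ≤ 1 := by
    have h5 : N ≤ 4 * N ^ 5 := by
      have : 1 ≤ N ^ 4 := one_le_pow₀ (by linarith)
      have h6 : N * 1 ≤ N * N ^ 4 := mul_le_mul_of_nonneg_left this (by linarith)
      nlinarith [show N * N ^ 4 = N ^ 5 by ring]
    exact (mul_le_mul_of_nonneg_right h5 hE0.le).trans hN5
  have hu : N ^ 2 * E ^ 2 ≤ 1 := by
    have : (N * E) ^ 2 ≤ 1 := pow_le_one₀ (by positivity) hNE
    nlinarith
  have hpow : (1 + N * Real.exp (-(r / (108 * k)))) ^ n - 1 ≤ 2 * (N ^ 2 * E ^ 2) := by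
    rw [hx]
    have h5 : (1 + N * E ^ 2) ^ n ≤ Real.exp (N ^ 2 * E ^ 2) := by
      calc (1 + N * E ^ 2) ^ n ≤ (Real.exp (N * E ^ 2)) ^ n := by
            apply pow_le_pow_left₀ (by positivity)
            linarith [Real.add_one_le_exp (N * E ^ 2)]
        _ = Real.exp (N ^ 2 * E ^ 2) := by
            rw [← Real.exp_nat_mul]
            congr 1
            rw [← hN]
            ring
    have h6 : |Real.exp (N ^ 2 * E ^ 2) - 1| ≤ 2 * |N ^ 2 * E ^ 2| := by
      apply Real.abs_exp_sub_one_le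
      rw [abs_of_nonneg (by positivity)]
      exact hu
    rw [abs_of_nonneg (show 0 ≤ N ^ 2 * E ^ 2 by positivity)] at h6
    have h7 := le_abs_self (Real.exp (N ^ 2 * E ^ 2) - 1)
    linarith
  have hT1 : N ^ 2 * (k * ((1 + N * Real.exp (-(r / (108 * k)))) ^ n - 1)) ≤ 1 / 2 * E := by
    calc N ^ 2 * (k * ((1 + N * Real.exp (-(r / (108 * k)))) ^ n - 1))
        ≤ N ^ 2 * (k * (2 * (N ^ 2 * E ^ 2))) :=
          mul_le_mul_of_nonneg_left (mul_le_mul_of_nonneg_left hpow hkpos.le) (by positivity)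
      _ ≤ N ^ 2 * (N * (2 * (N ^ 2 * E ^ 2))) :=
          mul_le_mul_of_nonneg_left (mul_le_mul_of_nonneg_right hkN (by positivity))
            (by positivity)
      _ = (4 * N ^ 5 * E) * (1 / 2 * E) := by ring
      _ ≤ 1 * (1 / 2 * E) := mul_le_mul_of_nonneg_right hN5 (by positivity)
      _ = _ := by ring
  have hT2 : N ^ 2 * (N ^ n * Real.exp (-(δ ^ 2 * r ^ 2 / (72 * k)))) ≤ 1 / 2 * E := by
    have h5 : 3 * l + N * l + t ≤ δ ^ 2 * r ^ 2 / (72 * k) := by
      rw [le_div_iff₀ (by positivity)]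
      have h6 : 3 * l + N * l + t ≤ 4 * (N * l) := by nlinarith
      have h7 : 0 < N * l := by positivity
      calc (3 * l + N * l + t) * (72 * k) ≤ 4 * (N * l) * (72 * k) :=
            mul_le_mul_of_nonneg_right h6 (by positivity)
        _ ≤ 1600 * k * N * l := by nlinarith [mul_pos hkpos h7]
        _ ≤ _ := H
    have h6 : N ^ 3 * (N ^ n * Real.exp (-(δ ^ 2 * r ^ 2 / (72 * k)))) ≤ E := by
      have h7 : N ^ n = Real.exp (N * l) := by
        rw [← hexp, ← Real.exp_nat_mul, hexp]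
      have h8 : N ^ 3 = Real.exp (3 * l) := by
        rw [← hexp, ← Real.exp_nat_mul]
        norm_num
      rw [h7, h8, ← Real.exp_add, ← Real.exp_add, hE]
      apply Real.exp_le_exp.2
      linarith
    have h7 : 2 * (N ^ 2 * (N ^ n * Real.exp (-(δ ^ 2 * r ^ 2 / (72 * k))))) ≤
        N ^ 3 * (N ^ n * Real.exp (-(δ ^ 2 * r ^ 2 / (72 * k)))) := by
      have h8 : N ^ 3 * (N ^ n * Real.exp (-(δ ^ 2 * r ^ 2 / (72 * k)))) =
        N * (N ^ 2 * (N ^ n * Real.exp (-(δ ^ 2 * r ^ 2 / (72 * k))))) := by ring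
      rw [h8]
      exact mul_le_mul_of_nonneg_right hN2 (by positivity)
    linarith
  rw [mul_add]
  linarith

theorem recon_of_TC' {V : Type} (G : SimpleGraph V) (a b c : V) (h : TC G a b c) :
    Reconstructible G := by
  intro W _ H hd
  obtain ⟨f, hf⟩ := hd
  exact h.2.2.2 W H (f a) (f b) (f c) (f.injective.ne h.1) (f.injective.ne h.2.1)
    (f.injective.ne h.2.2.1) (hf a) (hf b) (hf c)

section

variable {V : Type} [Fintype V]

theorem card_Rg_le (Γ : Subgroup (Equiv.Perm V)) : (Rg Γ).card ≤ Fintype.card V := by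
  rw [← card_univ]
  exact card_le_card (subset_univ _)

open Classical in
/-- almost all graphs have only the given symmetries -/
theorem almost_all (Γ : Subgroup (Equiv.Perm V)) (G₀ D : SimpleGraph V) (hD : Inv Γ D)
    (δ : ℝ) (hδ : 0 < δ) (hδ1 : δ ≤ 1 / 2)
    (hd : ∀ x : V, (1 / 2 + δ) * ((Rg Γ).card : ℝ) ≤
      (((Rg Γ).filter (fun w => D.Adj x w)).card : ℝ))
    (H : 1600 * (Nat.card Γ : ℝ) * Fintype.card V * Real.log (Fintype.card V) ≤
      δ ^ 2 * ((Rg Γ).card : ℝ) ^ 2) :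
    (({G | G ∈ Sp Γ G₀ D ∧ ¬ OnlySym Γ G}.ncard : ℕ) : ℝ) ≤
      Real.exp (-((Rg Γ).card / (216 * Nat.card Γ))) * ((Sp Γ G₀ D).ncard : ℝ) := by
  have : Fintype Γ := Fintype.ofFinite Γ
  have hk1 : (1 : ℝ) ≤ Nat.card Γ := by
    rw [Nat.card_eq_fintype_card]
    exact_mod_cast Fintype.card_pos
  by_cases hr : (Rg Γ).card = 0
  · rw [hr]
    simp only [Nat.cast_zero, zero_div, neg_zero, Real.exp_zero, one_mul]
    have : {G | G ∈ Sp Γ G₀ D ∧ ¬ OnlySym Γ G}.ncard ≤ (Sp Γ G₀ D).ncard :=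
      Set.ncard_le_ncard (fun G hG => hG.1) (Set.toFinite _)
    exact_mod_cast this
  · have hr0 : 0 < (Rg Γ).card := Nat.pos_of_ne_zero hr
    have hn : 2 ≤ Fintype.card V := by
      obtain ⟨x, hx⟩ := card_pos.1 hr0
      have h1 := hd x
      have h2 : 0 < ((Rg Γ).filter (fun w => D.Adj x w)).card := by
        have h3 : (0 : ℝ) < (1 / 2 + δ) * ((Rg Γ).card : ℝ) := by
          have : (0 : ℝ) < (Rg Γ).card := by exact_mod_cast hr0
          positivity
        have h4 := h3.trans_le h1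
        exact_mod_cast h4
      obtain ⟨w, hw⟩ := card_pos.1 h2
      have h3 : x ≠ w := ((mem_filter.1 hw).2).ne
      have h4 : ({x, w} : Finset V).card ≤ Fintype.card V := by
        rw [← card_univ]
        exact card_le_card (subset_univ _)
      rwa [card_pair h3] at h4
    obtain ⟨h1, h2⟩ := final_bound (Fintype.card V) hn (Nat.card Γ) ((Rg Γ).card) δ hk1
      (Nat.cast_nonneg _) (by exact_mod_cast card_Rg_le Γ) hδ hδ1 H
    have h3 := union_bound Γ G₀ D hD δ hδ hδ1 h1 hd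
    refine h3.trans ?_
    rw [mul_comm]
    exact mul_le_mul_of_nonneg_right h2 (Nat.cast_nonneg _)

/-- automorphisms are near-automorphisms -/
theorem aut_mem {Γ : Subgroup (Equiv.Perm V)} {G : SimpleGraph V} (h : OnlySym Γ G)
    (hc : 0 < Fintype.card V) (σ : Equiv.Perm V) (hσ : ∀ x y, G.Adj (σ x) (σ y) ↔ G.Adj x y) :
    σ ∈ Γ := by
  obtain ⟨a⟩ := Fintype.card_pos_iff.1 hc
  obtain ⟨γ, hγ, h1⟩ := h (σ, a, a) (fun x y _ _ _ _ => hσ x y)
  have h2 : σ = γ := by
    have h3 : ∀ x, x ≠ a → σ x = γ x := fun x hx => h1 x hx hx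
    have h4 : σ a = γ a := by
      by_contra hne
      obtain ⟨x, hx⟩ := γ.surjective (σ a)
      have hxa : x ≠ a := by
        intro e
        rw [e] at hx
        exact hne hx.symm
      have h5 := h3 x hxa
      rw [hx] at h5
      exact hxa (σ.injective h5)
    ext x
    by_cases hx : x = a
    · rw [hx, h4]
    · exact h3 x hx
  rw [h2]
  exact hγ

/-- the orbits of `Γ` are small -/
theorem orbit_card (Γ : Subgroup (Equiv.Perm V)) (a : V) (S : Finset V)
    (hS : ∀ x ∈ S, ∃ γ ∈ Γ, γ a = x) : S.card ≤ Nat.card Γ := by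
  classical
  have : Fintype Γ := Fintype.ofFinite Γ
  have h : S ⊆ (univ : Finset Γ).image (fun γ : Γ => (γ : Equiv.Perm V) a) := by
    intro x hx
    obtain ⟨γ, hγ, h1⟩ := hS x hx
    exact mem_image.2 ⟨⟨γ, hγ⟩, mem_univ _, h1⟩
  refine (card_le_card h).trans (card_image_le.trans ?_)
  rw [card_univ, Nat.card_eq_fintype_card]

theorem recon (Γ : Subgroup (Equiv.Perm V)) (G : SimpleGraph V) (hI : Inv Γ G)
    (hS : OnlySym Γ G) (hk : Nat.card Γ + 2 < Fintype.card V) :
    Pool.Agent.H234RC.Reconstructible G := by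
  classical
  have hc : 0 < Fintype.card V := by omega
  obtain ⟨a⟩ := Fintype.card_pos_iff.1 hc
  -- a vertex outside the orbit of a
  obtain ⟨c, hc⟩ : ∃ c : V, ¬ ∃ γ ∈ Γ, γ a = c := by
    by_contra hcon
    push Not at hcon
    have := orbit_card Γ a univ (fun x _ => hcon x)
    rw [card_univ] at this
    omega
  have hac : a ≠ c := fun e => hc ⟨1, one_mem _, by simpa using e⟩
  obtain ⟨b, hb⟩ : ∃ b : V, b ∉ ({a, c} : Finset V) := by
    by_contra hcon
    push Not at hcon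
    have h1 : (univ : Finset V) ⊆ {a, c} := fun x _ => hcon x
    have h2 := card_le_card h1
    rw [card_univ] at h2
    have h3 := card_le_two (a := a) (b := c)
    have h4 : 0 < Nat.card Γ := Nat.card_pos
    omega
  simp only [mem_insert, mem_singleton, not_or] at hb
  exact recon_of_TC' G a b c (crit' G Γ hI hS a b c (Ne.symm hb.1) hac hb.2 (fun h => hc h.2))

end

end Pool.Agent.J4H85.SY
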