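import Pool.Agent.J4H85.SY.Crit

set_option autoImplicit false

/-! Counting the invariant graphs with a given near-automorphism. -/

namespace Pool.Agent.J4H85.SY

open Finset Pool.Agent.H234RC

/-- a map without fixed points has a large set disjoint from its image -/
theorem indep_third {Q : Type} [DecidableEq Q] (f : Q → Q) :
    ∀ (m : ℕ) (P : Finset Q), P.card ≤ m → (∀ p ∈ P, f p ≠ p) →
      ∃ P' ⊆ P, P.card ≤ 3 * P'.card ∧ ∀ p ∈ P', f p ∉ P' := by
  intro m
  induction m with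
  | zero =>
    intro P hP _
    exact ⟨∅, empty_subset _, by simp; simpa using hP, by simp⟩
  | succ m ih =>
    intro P hP hf
    by_cases hP0 : P = ∅
    · exact ⟨∅, empty_subset _, by simp [hP0], by simp⟩
    -- some p in P has at most one preimage in P
    obtain ⟨p, hp, hp1⟩ : ∃ p ∈ P, (P.filter (fun q => f q = p)).card ≤ 1 := by
      by_contra hcon
      push Not at hcon
      have h1 : ∑ p ∈ P, (P.filter (fun q => f q = p)).card ≤ P.card := by
        rw [← card_biUnion]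
        · apply card_le_card
          intro q hq
          rw [mem_biUnion] at hq
          obtain ⟨a, _, ha⟩ := hq
          exact (mem_filter.1 ha).1
        · intro a _ b _ hab
          rw [Function.onFun, Finset.disjoint_left]
          intro q h1 h2
          exact hab ((mem_filter.1 h1).2.symm.trans (mem_filter.1 h2).2)
      have h2 : ∑ p ∈ P, 2 ≤ ∑ p ∈ P, (P.filter (fun q => f q = p)).card :=
        sum_le_sum (fun p hp => hcon p hp)
      rw [sum_const, smul_eq_mul] at h2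
      have h3 : 0 < P.card := card_pos.2 (nonempty_iff_ne_empty.2 hP0)
      omega
    set X : Finset Q := insert p (insert (f p) (P.filter (fun q => f q = p))) with hX
    have hXc : X.card ≤ 3 := by
      calc X.card ≤ (insert (f p) (P.filter (fun q => f q = p))).card + 1 := card_insert_le _ _
        _ ≤ (P.filter (fun q => f q = p)).card + 1 + 1 := by
          have := card_insert_le (f p) (P.filter (fun q => f q = p))
          omega
        _ ≤ 3 := by omega
    have hpX : p ∈ X := mem_insert_self _ _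
    have hlt : (P \ X).card < P.card := by
      apply card_lt_card
      refine ⟨sdiff_subset, fun h => ?_⟩
      exact (mem_sdiff.1 (h hp)).2 hpX
    obtain ⟨P', hP', hc, hi⟩ := ih (P \ X) (by omega) (fun q hq => hf q (mem_sdiff.1 hq).1)
    have hpP' : p ∉ P' := fun h => (mem_sdiff.1 (hP' h)).2 hpX
    refine ⟨insert p P', ?_, ?_, ?_⟩
    · intro q hq
      rcases mem_insert.1 hq with rfl | hq
      · exact hp
      · exact (mem_sdiff.1 (hP' hq)).1
    · rw [card_insert_of_notMem hpP']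
      have : P.card ≤ (P \ X).card + X.card := by
        have := card_le_card (show P ⊆ (P \ X) ∪ X by
          intro q hq
          by_cases h : q ∈ X
          · exact mem_union_right _ h
          · exact mem_union_left _ (mem_sdiff.2 ⟨hq, h⟩))
        exact this.trans (card_union_le _ _)
      omega
    · intro q hq hfq
      rcases mem_insert.1 hq with rfl | hq
      · rcases mem_insert.1 hfq with h | h
        · exact hf _ hp h
        · exact (mem_sdiff.1 (hP' h)).2 (mem_insert_of_mem (mem_insert_self _ _))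
      · rcases mem_insert.1 hfq with h | h
        · exact (mem_sdiff.1 (hP' hq)).2 (mem_insert_of_mem (mem_insert_of_mem
            (mem_filter.2 ⟨(mem_sdiff.1 (hP' hq)).1, h⟩)))
        · exact hi q hq h

section

variable {V : Type} (Γ : Subgroup (Equiv.Perm V))

/-- two pairs in the same orbit -/
def st : Setoid (Sym2 V) where
  r e e' := ∃ γ ∈ Γ, Sym2.map γ e = e'
  iseqv := by
    refine ⟨fun e => ⟨1, one_mem _, by simp [Equiv.Perm.coe_one, Sym2.map_id]⟩, ?_, ?_⟩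
    · rintro e _ ⟨γ, hγ, rfl⟩
      refine ⟨γ⁻¹, inv_mem hγ, ?_⟩
      rw [Sym2.map_map]
      have : (⇑γ⁻¹ ∘ ⇑γ) = id := by
        funext x
        simp
      rw [this, Sym2.map_id]
      rfl
    · rintro e _ _ ⟨γ, hγ, rfl⟩ ⟨γ', hγ', rfl⟩
      refine ⟨γ' * γ, mul_mem hγ' hγ, ?_⟩
      rw [Sym2.map_map]
      rfl

/-- the orbit of a pair -/
def cl (e : Sym2 V) : Quotient (st Γ) := Quotient.mk (st Γ) e

theorem cl_eq {e e' : Sym2 V} : cl Γ e = cl Γ e' ↔ ∃ γ ∈ Γ, Sym2.map γ e = e' :=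
  ⟨fun h => Quotient.exact h, fun h => Quotient.sound h⟩

theorem adj_of_cl {G : SimpleGraph V} (hI : Inv Γ G) {x y u w : V}
    (h : cl Γ s(x, y) = cl Γ s(u, w)) : G.Adj x y ↔ G.Adj u w := by
  obtain ⟨γ, hγ, h1⟩ := (cl_eq Γ).1 h
  rw [Sym2.map_mk] at h1
  have h2 : s(γ x, γ y) = s(u, w) := h1
  rw [← hI γ hγ x y]
  rcases Sym2.eq_iff.1 h2 with ⟨h3, h4⟩ | ⟨h3, h4⟩
  · rw [h3, h4]
  · rw [h3, h4, G.adj_comm]

/-- the graphs obtained from `G₀` by invariant changes of pairs of `D` -/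
def Sp (G₀ D : SimpleGraph V) : Set (SimpleGraph V) :=
  {G | Inv Γ G ∧ ∀ x y, ¬ D.Adj x y → (G.Adj x y ↔ G₀.Adj x y)}

open Classical in
/-- the flip of `G` at the orbits in `A` -/
def flip (G : SimpleGraph V) (A : Finset (Quotient (st Γ))) : SimpleGraph V where
  Adj x y := x ≠ y ∧ (G.Adj x y ↔ cl Γ s(x, y) ∉ A)
  symm := ⟨by
    intro x y h
    refine ⟨h.1.symm, ?_⟩
    rw [G.adj_comm, Sym2.eq_swap]
    exact h.2⟩
  loopless := ⟨fun x h => h.1 rfl⟩

theorem flip_adj (G : SimpleGraph V) (A : Finset (Quotient (st Γ))) (x y : V) :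
    (flip Γ G A).Adj x y ↔ x ≠ y ∧ (G.Adj x y ↔ cl Γ s(x, y) ∉ A) := Iff.rfl

variable [Fintype V]

/-- the counting lemma -/
theorem count_flip (G₀ D : SimpleGraph V) (hD : Inv Γ D)
    (φ : NAut V) (P : Finset (Quotient (st Γ)))
    (hP : ∀ p ∈ P, ∃ u w, D.Adj u w ∧ u ≠ φ.2.1 ∧ u ≠ φ.2.2 ∧ w ≠ φ.2.1 ∧ w ≠ φ.2.2 ∧
      cl Γ s(u, w) = p ∧ cl Γ s(φ.1 u, φ.1 w) ∉ P) :
    {G | G ∈ Sp Γ G₀ D ∧ IsNA G φ}.ncard * 2 ^ P.card ≤ (Sp Γ G₀ D).ncard := by
  classical
  rw [← card_powerset, ← Set.ncard_coe_finset, ← Set.ncard_prod]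
  apply Set.ncard_le_ncard_of_injOn (fun q => flip Γ q.1 q.2)
  · rintro ⟨G, A⟩ ⟨⟨⟨hG1, hG2⟩, hG3⟩, hA⟩
    have hA' : A ⊆ P := mem_powerset.1 (mem_coe.1 hA)
    refine ⟨?_, ?_⟩
    · intro γ hγ x y
      rw [flip_adj, flip_adj]
      have h1 : cl Γ s(γ x, γ y) = cl Γ s(x, y) :=
        ((cl_eq Γ (e := s(x, y))).2 ⟨γ, hγ, rfl⟩).symm
      show γ x ≠ γ y ∧ (G.Adj (γ x) (γ y) ↔ cl Γ s(γ x, γ y) ∉ A) ↔
        x ≠ y ∧ (G.Adj x y ↔ cl Γ s(x, y) ∉ A)
      rw [h1, hG1 γ hγ x y, γ.injective.ne_iff]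
    · intro x y hxy
      show (flip Γ G A).Adj x y ↔ _
      rw [flip_adj]
      have h1 : cl Γ s(x, y) ∉ A := by
        intro h
        obtain ⟨u, w, huw, -, -, -, -, h2, -⟩ := hP _ (hA' h)
        exact hxy ((adj_of_cl Γ hD h2).1 huw)
      have h2 : (G.Adj x y ↔ cl Γ s(x, y) ∉ A) ↔ G.Adj x y := by
        constructor
        · intro h; exact h.2 h1
        · intro h; exact ⟨fun _ => h1, fun _ => h⟩
      rw [h2, ← hG2 x y hxy]
      exact ⟨fun h => h.2, fun h => ⟨h.ne, h⟩⟩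
  · rintro ⟨G, A⟩ ⟨⟨⟨hG1, hG2⟩, hG3⟩, hA⟩ ⟨G', A'⟩ ⟨⟨⟨hG1', hG2'⟩, hG3'⟩, hA'⟩ heq
    have hAP : A ⊆ P := mem_powerset.1 (mem_coe.1 hA)
    have hAP' : A' ⊆ P := mem_powerset.1 (mem_coe.1 hA')
    have hh : ∀ x y, x ≠ y → ((G.Adj x y ↔ cl Γ s(x, y) ∉ A) ↔
        (G'.Adj x y ↔ cl Γ s(x, y) ∉ A')) := by
      intro x y hxy
      have h1 : (flip Γ G A).Adj x y ↔ (flip Γ G' A').Adj x y := by
        have : flip Γ G A = flip Γ G' A' := heq
        rw [this]
      rw [flip_adj, flip_adj] at h1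
      constructor
      · intro h; exact (h1.1 ⟨hxy, h⟩).2
      · intro h; exact (h1.2 ⟨hxy, h⟩).2
    have hout : ∀ x y, cl Γ s(x, y) ∉ P → (G.Adj x y ↔ G'.Adj x y) := by
      intro x y h
      by_cases hxy : x = y
      · rw [hxy]; simp
      · have h1 := hh x y hxy
        have h2 : cl Γ s(x, y) ∉ A := fun h' => h (hAP h')
        have h3 : cl Γ s(x, y) ∉ A' := fun h' => h (hAP' h')
        tauto
    have hG : ∀ x y, G.Adj x y ↔ G'.Adj x y := by
      intro x y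
      by_cases h : cl Γ s(x, y) ∈ P
      · obtain ⟨u, w, huw, u1, u2, w1, w2, h2, h3⟩ := hP _ h
        rw [← adj_of_cl Γ hG1 h2, ← adj_of_cl Γ hG1' h2, ← hG3 u w u1 u2 w1 w2,
          ← hG3' u w u1 u2 w1 w2]
        exact hout _ _ h3
      · exact hout x y h
    have hGG : G = G' := by
      ext x y
      exact hG x y
    have hAA : A = A' := by
      have h1 : ∀ p ∈ P, (p ∈ A ↔ p ∈ A') := by
        intro p hp
        obtain ⟨u, w, huw, -, -, -, -, h2, -⟩ := hP p hp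
        have h4 := hh u w huw.ne
        rw [h2, hG u w] at h4
        tauto
      ext p
      by_cases hp : p ∈ P
      · exact h1 p hp
      · exact ⟨fun h => absurd (hAP h) hp, fun h => absurd (hAP' h) hp⟩
    rw [hGG, hAA]

/-- the number of bad pairs of a near-automorphism -/
noncomputable def bp (D : SimpleGraph V) (φ : NAut V) : Finset (V × V) := by
  classical
  exact univ.filter (fun q => D.Adj q.1 q.2 ∧ q.1 ≠ φ.2.1 ∧ q.1 ≠ φ.2.2 ∧ q.2 ≠ φ.2.1 ∧
    q.2 ≠ φ.2.2 ∧ cl Γ s(φ.1 q.1, φ.1 q.2) ≠ cl Γ s(q.1, q.2))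

theorem mem_bp (D : SimpleGraph V) (φ : NAut V) (q : V × V) : q ∈ bp Γ D φ ↔
    D.Adj q.1 q.2 ∧ q.1 ≠ φ.2.1 ∧ q.1 ≠ φ.2.2 ∧ q.2 ≠ φ.2.1 ∧
    q.2 ≠ φ.2.2 ∧ cl Γ s(φ.1 q.1, φ.1 q.2) ≠ cl Γ s(q.1, q.2) := by
  classical
  unfold bp
  rw [mem_filter]
  exact ⟨fun h => h.2, fun h => ⟨mem_univ _, h⟩⟩

/-- the probability of a near-automorphism -/
theorem count_na (G₀ D : SimpleGraph V) (hD : Inv Γ D) (φ : NAut V) :
    ∃ s : ℕ, (bp Γ D φ).card ≤ 6 * Nat.card Γ * s ∧
      {G | G ∈ Sp Γ G₀ D ∧ IsNA G φ}.ncard * 2 ^ s ≤ (Sp Γ G₀ D).ncard := by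
  classical
  set B := bp Γ D φ with hB
  set P := B.image (fun q => cl Γ s(q.1, q.2)) with hPdef
  -- fibres
  have hfib : B.card ≤ (2 * Nat.card Γ) * P.card := by
    apply card_le_mul_card_image
    intro p hp
    obtain ⟨q0, hq0, hp0⟩ := mem_image.1 hp
    have : Fintype Γ := Fintype.ofFinite Γ
    have hsub : B.filter (fun q => cl Γ s(q.1, q.2) = p) ⊆
        (univ : Finset (Γ × Bool)).image (fun t =>
          if t.2 then ((t.1 : Equiv.Perm V) q0.1, (t.1 : Equiv.Perm V) q0.2)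
          else ((t.1 : Equiv.Perm V) q0.2, (t.1 : Equiv.Perm V) q0.1)) := by
      intro q hq
      obtain ⟨-, hq2⟩ := mem_filter.1 hq
      rw [← hp0] at hq2
      obtain ⟨γ, hγ, h1⟩ := (cl_eq Γ).1 hq2.symm
      rw [Sym2.map_mk] at h1
      have h2 : s(γ q0.1, γ q0.2) = s(q.1, q.2) := h1
      rw [mem_image]
      rcases Sym2.eq_iff.1 h2 with ⟨h3, h4⟩ | ⟨h3, h4⟩
      · exact ⟨(⟨γ, hγ⟩, true), mem_univ _, by simp [h3, h4]⟩
      · exact ⟨(⟨γ, hγ⟩, false), mem_univ _, by simp [h3, h4]⟩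
    calc _ ≤ _ := card_le_card hsub
      _ ≤ (univ : Finset (Γ × Bool)).card := card_image_le
      _ = 2 * Nat.card Γ := by
        rw [card_univ, Fintype.card_prod, Fintype.card_bool, Nat.card_eq_fintype_card]
        ring
  -- representatives
  have hrep : ∀ p : Quotient (st Γ), ∃ q : V × V, p ∈ P → (q ∈ B ∧ cl Γ s(q.1, q.2) = p) := by
    intro p
    by_cases hp : p ∈ P
    · obtain ⟨q, hq, h⟩ := mem_image.1 hp
      exact ⟨q, fun _ => ⟨hq, h⟩⟩
    · by_cases hB0 : B.Nonempty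
      · exact ⟨hB0.choose, fun h => absurd h hp⟩
      · revert hp
        refine Quotient.inductionOn p ?_
        intro e hp
        induction e using Sym2.ind with
        | _ x y => exact ⟨(x, y), fun h => absurd h hp⟩
  choose q hq using hrep
  obtain ⟨P', hP', hc, hi⟩ := indep_third (fun p => cl Γ s(φ.1 (q p).1, φ.1 (q p).2)) P.card P
    le_rfl (by
      intro p hp
      obtain ⟨h1, h2⟩ := hq p hp
      have h3 := ((mem_bp Γ D φ _).1 h1).2.2.2.2.2
      rw [h2] at h3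
      exact h3)
  refine ⟨P'.card, ?_, ?_⟩
  · calc B.card ≤ (2 * Nat.card Γ) * P.card := hfib
      _ ≤ (2 * Nat.card Γ) * (3 * P'.card) := Nat.mul_le_mul le_rfl hc
      _ = _ := by ring
  · apply count_flip Γ G₀ D hD φ P'
    intro p hp
    obtain ⟨h1, h2⟩ := hq p (hP' hp)
    obtain ⟨g1, g2, g3, g4, g5, g6⟩ := (mem_bp Γ D φ _).1 h1
    exact ⟨(q p).1, (q p).2, g1, g2, g3, g4, g5, h2, hi p hp⟩

end

end Pool.Agent.J4H85.SY
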