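import Pool.Agent.J4H85.SY.Bad

set_option autoImplicit false

/-! The union bound over all near-automorphisms. -/

namespace Pool.Agent.J4H85.SY

open Finset Pool.Agent.H234RC

section

variable {V : Type} [Fintype V]

open Classical in
theorem card_df_eq (γ : Equiv.Perm V) (S : Finset V) :
    ((univ : Finset (Equiv.Perm V)).filter (fun σ => df σ γ = S)).card ≤
      Fintype.card V ^ S.card := by
  have h : Fintype.card V ^ S.card = (univ : Finset (S → V)).card := by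
    rw [card_univ, Fintype.card_fun, Fintype.card_coe]
  rw [h]
  apply card_le_card_of_injOn (fun σ => fun s : S => σ s) (fun _ _ => mem_coe.2 (mem_univ _))
  intro σ hσ τ hτ hst
  have h1 : df σ γ = S := (mem_filter.1 (mem_coe.1 hσ)).2
  have h2 : df τ γ = S := (mem_filter.1 (mem_coe.1 hτ)).2
  ext x
  by_cases hx : x ∈ S
  · exact congrFun hst ⟨x, hx⟩
  · have a1 : σ x = γ x := by
      by_contra h3
      exact hx (h1 ▸ (mem_df σ γ x).2 h3)
    have a2 : τ x = γ x := by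
      by_contra h3
      exact hx (h2 ▸ (mem_df τ γ x).2 h3)
    rw [a1, a2]

open Classical in
theorem sum_perm (γ : Equiv.Perm V) (x : ℝ) (hx : 0 ≤ x) :
    ∑ σ ∈ (univ : Finset (Equiv.Perm V)).filter (fun σ => (df σ γ).Nonempty),
      x ^ (df σ γ).card ≤ (1 + Fintype.card V * x) ^ Fintype.card V - 1 := by
  have h1 : ∑ σ ∈ (univ : Finset (Equiv.Perm V)).filter (fun σ => (df σ γ).Nonempty),
      x ^ (df σ γ).card = ∑ S ∈ (univ : Finset (Finset V)).filter (fun S => S.Nonempty),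
        ∑ σ ∈ ((univ : Finset (Equiv.Perm V)).filter (fun σ => (df σ γ).Nonempty)).filter
          (fun σ => df σ γ = S), x ^ (df σ γ).card := by
    rw [sum_fiberwise_of_maps_to]
    intro σ hσ
    exact mem_filter.2 ⟨mem_univ _, (mem_filter.1 hσ).2⟩
  rw [h1]
  have h2 : ∀ S ∈ (univ : Finset (Finset V)).filter (fun S => S.Nonempty),
      ∑ σ ∈ ((univ : Finset (Equiv.Perm V)).filter (fun σ => (df σ γ).Nonempty)).filter
          (fun σ => df σ γ = S), x ^ (df σ γ).card ≤ (Fintype.card V * x) ^ S.card := by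
    intro S _
    calc ∑ σ ∈ ((univ : Finset (Equiv.Perm V)).filter (fun σ => (df σ γ).Nonempty)).filter
          (fun σ => df σ γ = S), x ^ (df σ γ).card
        = ∑ σ ∈ ((univ : Finset (Equiv.Perm V)).filter (fun σ => (df σ γ).Nonempty)).filter
          (fun σ => df σ γ = S), x ^ S.card := by
          apply sum_congr rfl
          intro σ hσ
          rw [(mem_filter.1 hσ).2]
      _ ≤ ∑ σ ∈ (univ : Finset (Equiv.Perm V)).filter (fun σ => df σ γ = S), x ^ S.card := by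
          apply sum_le_sum_of_subset_of_nonneg
          · intro σ hσ
            exact mem_filter.2 ⟨mem_univ _, (mem_filter.1 hσ).2⟩
          · intro _ _ _
            positivity
      _ = (((univ : Finset (Equiv.Perm V)).filter (fun σ => df σ γ = S)).card : ℝ) *
            x ^ S.card := by rw [sum_const, nsmul_eq_mul]
      _ ≤ ((Fintype.card V ^ S.card : ℕ) : ℝ) * x ^ S.card := by
          apply mul_le_mul_of_nonneg_right _ (by positivity)
          exact_mod_cast card_df_eq γ S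
      _ = (Fintype.card V * x) ^ S.card := by
          push_cast
          rw [mul_pow]
  refine (sum_le_sum h2).trans ?_
  have h3 : ∑ S ∈ (univ : Finset V).powerset, (Fintype.card V * x) ^ S.card *
      (1 : ℝ) ^ ((univ : Finset V).card - S.card) =
        (Fintype.card V * x + 1) ^ (univ : Finset V).card :=
    sum_pow_mul_eq_add_pow _ _ _
  simp only [one_pow, mul_one, card_univ] at h3
  have h4 : ∑ S ∈ (univ : Finset (Finset V)), (Fintype.card V * x) ^ S.card =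
      ∑ S ∈ (univ : Finset (Finset V)).filter (fun S => S.Nonempty),
        (Fintype.card V * x) ^ S.card + 1 := by
    rw [← sum_filter_add_sum_filter_not (univ : Finset (Finset V)) (fun S => S.Nonempty)]
    congr 1
    have : (univ : Finset (Finset V)).filter (fun S => ¬ S.Nonempty) = {∅} := by
      ext S
      simp [not_nonempty_iff_eq_empty]
    rw [this, sum_singleton]
    simp
  rw [← powerset_univ] at h4
  rw [h3] at h4
  rw [powerset_univ] at h4
  rw [add_comm (1 : ℝ)]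
  linarith

open Classical in
theorem sum_perm' (γ : Equiv.Perm V) (x : ℝ) (hx : 0 ≤ x) :
    ∑ σ : Equiv.Perm V, (if (df σ γ).Nonempty then x ^ (df σ γ).card else 0) ≤
      (1 + Fintype.card V * x) ^ Fintype.card V - 1 := by
  have h := sum_perm γ x hx
  rw [sum_filter] at h
  exact h

open Classical in
/-- the weight of a permutation -/
noncomputable def wt (Γ : Subgroup (Equiv.Perm V)) (x y : ℝ) (σ : Equiv.Perm V) : ℝ :=
  ∑ γ : Γ, (if (df σ γ).Nonempty then x ^ (df σ γ).card else 0) + y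

theorem wt_nonneg (Γ : Subgroup (Equiv.Perm V)) (x y : ℝ) (hx : 0 ≤ x) (hy : 0 ≤ y)
    (σ : Equiv.Perm V) : 0 ≤ wt Γ x y σ := by
  classical
  unfold wt
  apply add_nonneg _ hy
  apply sum_nonneg
  intro γ _
  split_ifs
  · exact pow_nonneg hx _
  · exact le_rfl

theorem wt_term (Γ : Subgroup (Equiv.Perm V)) (x y : ℝ) (hx : 0 ≤ x) (hy : 0 ≤ y)
    (σ γ : Equiv.Perm V) (hγ : γ ∈ Γ) (h : (df σ γ).Nonempty) :
    x ^ (df σ γ).card ≤ wt Γ x y σ := by
  classical
  unfold wt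
  have hterm : ∀ γ : Γ, 0 ≤ (if (df σ γ).Nonempty then x ^ (df σ γ).card else 0) := by
    intro γ
    split_ifs
    · exact pow_nonneg hx _
    · exact le_rfl
  have := single_le_sum (f := fun γ : Γ =>
    (if (df σ γ).Nonempty then x ^ (df σ γ).card else 0)) (s := univ)
    (fun γ _ => hterm γ) (mem_univ (⟨γ, hγ⟩ : Γ))
  simp only [h, if_true] at this
  linarith

theorem wt_y (Γ : Subgroup (Equiv.Perm V)) (x y : ℝ) (hx : 0 ≤ x)
    (σ : Equiv.Perm V) : y ≤ wt Γ x y σ := by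
  classical
  unfold wt
  have : 0 ≤ ∑ γ : Γ, (if (df σ γ).Nonempty then x ^ (df σ γ).card else 0) := by
    apply sum_nonneg
    intro γ _
    split_ifs
    · exact pow_nonneg hx _
    · exact le_rfl
  linarith

open Classical in
theorem sum_wt (Γ : Subgroup (Equiv.Perm V)) (x y : ℝ) (hx : 0 ≤ x) (hy : 0 ≤ y) :
    ∑ σ : Equiv.Perm V, wt Γ x y σ ≤
      Nat.card Γ * ((1 + Fintype.card V * x) ^ Fintype.card V - 1) +
      (Fintype.card V : ℝ) ^ Fintype.card V * y := by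
  unfold wt
  rw [sum_add_distrib]
  apply add_le_add
  · rw [sum_comm]
    have h1 : ∀ γ ∈ (univ : Finset Γ), ∑ σ : Equiv.Perm V,
        (if (df σ γ).Nonempty then x ^ (df σ γ).card else 0) ≤
          (1 + Fintype.card V * x) ^ Fintype.card V - 1 := by
      intro γ _
      exact sum_perm' (γ : Equiv.Perm V) x hx
    refine (sum_le_sum h1).trans ?_
    rw [sum_const, nsmul_eq_mul, card_univ, Nat.card_eq_fintype_card]
  · rw [sum_const, nsmul_eq_mul]
    apply mul_le_mul_of_nonneg_right _ hy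
    rw [card_univ, Fintype.card_perm]
    exact_mod_cast Nat.factorial_le_pow _

open Classical in
theorem sum_wt' (Γ : Subgroup (Equiv.Perm V)) (x y : ℝ) (hx : 0 ≤ x) (hy : 0 ≤ y) :
    ∑ φ : NAut V, wt Γ x y φ.1 ≤ (Fintype.card V : ℝ) ^ 2 *
      (Nat.card Γ * ((1 + Fintype.card V * x) ^ Fintype.card V - 1) +
      (Fintype.card V : ℝ) ^ Fintype.card V * y) := by
  have h : ∑ φ : NAut V, wt Γ x y φ.1 =
      (Fintype.card V : ℝ) ^ 2 * ∑ σ : Equiv.Perm V, wt Γ x y σ := by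
    rw [Fintype.sum_prod_type]
    simp only [sum_const, card_univ, Fintype.card_prod, nsmul_eq_mul]
    rw [← mul_sum]
    push_cast
    ring
  rw [h]
  exact mul_le_mul_of_nonneg_left (sum_wt Γ x y hx hy) (by positivity)

theorem half_exp (s : ℕ) : Real.exp (2 / 3 * (s : ℝ)) ≤ 2 ^ s := by
  have h1 : Real.exp (2 / 3) ≤ 2 := by
    rw [← Real.le_log_iff_exp_le (by norm_num)]
    linarith [Real.log_two_gt_d9]
  calc Real.exp (2 / 3 * (s : ℝ)) = Real.exp (2 / 3) ^ s := by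
        rw [← Real.exp_nat_mul]
        ring_nf
    _ ≤ 2 ^ s := pow_le_pow_left₀ (Real.exp_pos _).le h1 s

open Classical in
/-- the union bound -/
theorem union_bound (Γ : Subgroup (Equiv.Perm V)) (G₀ D : SimpleGraph V) (hD : Inv Γ D)
    (δ : ℝ) (hδ : 0 < δ) (hδ1 : δ ≤ 1 / 2)
    (hk : (Nat.card Γ : ℝ) + 2 ≤ δ / 4 * (Rg Γ).card)
    (hd : ∀ x : V, (1 / 2 + δ) * ((Rg Γ).card : ℝ) ≤
      (((Rg Γ).filter (fun w => D.Adj x w)).card : ℝ)) :
    (({G | G ∈ Sp Γ G₀ D ∧ ¬ OnlySym Γ G}.ncard : ℕ) : ℝ) ≤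
      ((Sp Γ G₀ D).ncard : ℝ) * ((Fintype.card V : ℝ) ^ 2 * (Nat.card Γ *
        ((1 + Fintype.card V * Real.exp (-((Rg Γ).card / (108 * Nat.card Γ)))) ^
          Fintype.card V - 1) + (Fintype.card V : ℝ) ^ Fintype.card V *
            Real.exp (-(δ ^ 2 * (Rg Γ).card ^ 2 / (72 * Nat.card Γ))))) := by
  have : Fintype Γ := Fintype.ofFinite Γ
  have hkpos : 0 < (Nat.card Γ : ℝ) := by
    rw [Nat.card_eq_fintype_card]
    exact_mod_cast Fintype.card_pos
  set k : ℝ := (Nat.card Γ : ℝ) with hkdef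
  set r : ℝ := ((Rg Γ).card : ℝ) with hr
  set x : ℝ := Real.exp (-(r / (108 * k))) with hx
  set y : ℝ := Real.exp (-(δ ^ 2 * r ^ 2 / (72 * k))) with hy
  set Φ : Finset (NAut V) := univ.filter
    (fun φ => ∀ γ ∈ Γ, ∃ x, x ≠ φ.2.1 ∧ x ≠ φ.2.2 ∧ φ.1 x ≠ γ x) with hΦ
  set N : ℝ := ((Sp Γ G₀ D).ncard : ℝ) with hN
  have hN0 : 0 ≤ N := Nat.cast_nonneg _
  have hx0 : 0 ≤ x := (Real.exp_pos _).le
  have hy0 : 0 ≤ y := (Real.exp_pos _).le
  -- one near-automorphism
  have hone : ∀ φ ∈ Φ, (({G | G ∈ Sp Γ G₀ D ∧ IsNA G φ}.ncard : ℕ) : ℝ) ≤ N * wt Γ x y φ.1 := by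
    intro φ hφ
    obtain ⟨s, hs1, hs2⟩ := count_na Γ G₀ D hD φ
    have hs2' : (({G | G ∈ Sp Γ G₀ D ∧ IsNA G φ}.ncard : ℕ) : ℝ) * 2 ^ s ≤ N := by
      rw [hN]
      exact_mod_cast hs2
    have hs1' : ((bp Γ D φ).card : ℝ) ≤ 6 * k * s := by
      rw [hkdef]
      exact_mod_cast hs1
    have h1 : (({G | G ∈ Sp Γ G₀ D ∧ IsNA G φ}.ncard : ℕ) : ℝ) ≤
        N * Real.exp (-(2 / 3 * (s : ℝ))) := by
      rw [Real.exp_neg, ← div_eq_mul_inv, le_div_iff₀ (Real.exp_pos _)]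
      exact (mul_le_mul_of_nonneg_left (half_exp s) (Nat.cast_nonneg _)).trans hs2'
    refine h1.trans (mul_le_mul_of_nonneg_left ?_ hN0)
    rcases dich Γ D φ δ hδ hδ1 hk hd (mem_filter.1 hφ).2 with ⟨γ, hγ, h2, h3⟩ | h2
    · have h4 : Real.exp (-(2 / 3 * (s : ℝ))) ≤ x ^ (df φ.1 γ).card := by
        rw [hx, ← Real.exp_nat_mul]
        apply Real.exp_le_exp.2
        have h5 : ((df φ.1 γ).card : ℝ) * r ≤ 72 * k * s := by linarith
        have h6 : ((df φ.1 γ).card : ℝ) * r / (108 * k) ≤ 2 / 3 * s := by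
          rw [div_le_iff₀ (by positivity)]
          linarith
        have h7 : ((df φ.1 γ).card : ℝ) * -(r / (108 * k)) =
            -(((df φ.1 γ).card : ℝ) * r / (108 * k)) := by ring
        rw [h7]
        linarith
      exact h4.trans (wt_term Γ x y hx0 hy0 φ.1 γ hγ h2)
    · have h4 : Real.exp (-(2 / 3 * (s : ℝ))) ≤ y := by
        apply Real.exp_le_exp.2
        have h6 : δ ^ 2 * r ^ 2 / (72 * k) ≤ 2 / 3 * s := by
          rw [div_le_iff₀ (by positivity)]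
          linarith
        linarith
      exact h4.trans (wt_y Γ x y hx0 φ.1)
  -- the union
  have hsub : {G | G ∈ Sp Γ G₀ D ∧ ¬ OnlySym Γ G} ⊆
      ⋃ φ ∈ Φ, {G | G ∈ Sp Γ G₀ D ∧ IsNA G φ} := by
    rintro G ⟨hG1, hG2⟩
    unfold OnlySym at hG2
    push Not at hG2
    obtain ⟨φ, h1, h2⟩ := hG2
    rw [Set.mem_iUnion₂]
    exact ⟨φ, mem_filter.2 ⟨mem_univ _, h2⟩, hG1, h1⟩
  have hcard : {G | G ∈ Sp Γ G₀ D ∧ ¬ OnlySym Γ G}.ncard ≤
      ∑ φ ∈ Φ, {G | G ∈ Sp Γ G₀ D ∧ IsNA G φ}.ncard :=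
    (Set.ncard_le_ncard hsub (Set.toFinite _)).trans (Finset.set_ncard_biUnion_le _ _)
  calc (({G | G ∈ Sp Γ G₀ D ∧ ¬ OnlySym Γ G}.ncard : ℕ) : ℝ)
      ≤ ((∑ φ ∈ Φ, {G | G ∈ Sp Γ G₀ D ∧ IsNA G φ}.ncard : ℕ) : ℝ) := by exact_mod_cast hcard
    _ = ∑ φ ∈ Φ, (({G | G ∈ Sp Γ G₀ D ∧ IsNA G φ}.ncard : ℕ) : ℝ) := by push_cast; rfl
    _ ≤ ∑ φ ∈ Φ, N * wt Γ x y φ.1 := sum_le_sum hone
    _ ≤ ∑ φ : NAut V, N * wt Γ x y φ.1 := by
        apply sum_le_sum_of_subset_of_nonneg (subset_univ _)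
        intro φ _ _
        exact mul_nonneg hN0 (wt_nonneg Γ x y hx0 hy0 _)
    _ = N * ∑ φ : NAut V, wt Γ x y φ.1 := by rw [mul_sum]
    _ ≤ _ := by
        apply mul_le_mul_of_nonneg_left _ hN0
        exact sum_wt' Γ x y hx0 hy0

end

end Pool.Agent.J4H85.SY
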